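import Mathlib

set_option autoImplicit false

namespace Pool.Agent.H238R2.LR

open Finset

/-- The VC dimension of the rows of the submatrix `A × B` of `F` is at most `d`: every set `S` of
columns in `B` that is shattered by rows in `A` has at most `d` elements. -/
def RowVC {X Y : Type*} (F : X → Y → Bool) (A : Finset X) (B : Finset Y) (d : ℕ) : Prop :=
  ∀ S ⊆ B, (∀ T ⊆ S, ∃ x ∈ A, ∀ y ∈ S, (F x y = true ↔ y ∈ T)) → S.card ≤ d

section
variable {X Y : Type} [DecidableEq X] [DecidableEq Y]

theorem card_le_small (T : Finset Y) (d : ℕ) :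
    (T.powerset.filter (fun s => s.card ≤ d)).card ≤ (T.card + 1) ^ d := by
  induction d with
  | zero =>
    have : (T.powerset.filter (fun s => s.card ≤ 0)) ⊆ {∅} := by
      intro s hs
      simp only [mem_filter, Nat.le_zero, card_eq_zero] at hs
      simp [hs.2]
    simpa using card_le_card this
  | succ d ih =>
    have h1 : (T.powerset.filter (fun s => s.card ≤ d + 1)) ⊆
        ((insertNone T) ×ˢ (T.powerset.filter (fun s => s.card ≤ d))).image
          (fun p : Option Y × Finset Y => p.1.elim p.2 (fun y => insert y p.2)) := by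
      intro s hs
      simp only [mem_filter, mem_powerset] at hs
      rw [mem_image]
      by_cases hc : s.card ≤ d
      · refine ⟨(none, s), ?_, rfl⟩
        simp [hs.1, hc]
      · obtain ⟨y, hy⟩ : s.Nonempty := by
          rw [← card_pos]; omega
        refine ⟨(some y, s.erase y), ?_, ?_⟩
        · rw [mem_product]
          refine ⟨by simp [hs.1 hy], ?_⟩
          simp only [mem_filter, mem_powerset]
          refine ⟨(erase_subset _ _).trans hs.1, ?_⟩
          rw [card_erase_of_mem hy]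
          omega
        · simp [insert_erase hy]
    calc (T.powerset.filter (fun s => s.card ≤ d + 1)).card
        ≤ _ := card_le_card h1
      _ ≤ ((insertNone T) ×ˢ (T.powerset.filter (fun s => s.card ≤ d))).card := card_image_le
      _ = (T.card + 1) * (T.powerset.filter (fun s => s.card ≤ d)).card := by
          rw [card_product, card_insertNone]
      _ ≤ (T.card + 1) * (T.card + 1) ^ d := Nat.mul_le_mul_left _ ih
      _ = (T.card + 1) ^ (d + 1) := by ring

/-- Sauer–Shelah in the form used below. -/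
theorem sauer (F : X → Y → Bool) (A P : Finset X) (B T : Finset Y) (d : ℕ) (hT : T ⊆ B)
    (h : RowVC F A B d) (hP : P ⊆ A)
    (hinj : ∀ x ∈ P, ∀ x' ∈ P, (∀ y ∈ T, F x y = F x' y) → x = x') :
    P.card ≤ (T.card + 1) ^ d := by
  set 𝒜 : Finset (Finset Y) := P.image (fun x => T.filter (fun y => F x y = true)) with h𝒜
  have h1 : 𝒜.card = P.card := by
    rw [h𝒜]
    refine card_image_of_injOn ?_
    intro x hx x' hx' hxx
    refine hinj x hx x' hx' (fun y hy => ?_)
    have h2 : (y ∈ T.filter (fun y => F x y = true)) ↔ (y ∈ T.filter (fun y => F x' y = true)) := by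
      have hxx2 : T.filter (fun y => F x y = true) = T.filter (fun y => F x' y = true) := hxx
      rw [hxx2]
    simp only [mem_filter, hy, true_and] at h2
    exact Bool.eq_iff_iff.mpr h2
  have h2 : 𝒜.shatterer ⊆ T.powerset.filter (fun s => s.card ≤ d) := by
    intro s hs
    rw [mem_shatterer] at hs
    have hsT : s ⊆ T := by
      obtain ⟨u, hu, hsu⟩ := hs (Subset.refl s)
      rw [h𝒜, mem_image] at hu
      obtain ⟨x, -, rfl⟩ := hu
      intro y hy
      rw [← hsu] at hy
      exact (mem_filter.mp (mem_inter.mp hy).2).1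
    refine mem_filter.mpr ⟨mem_powerset.mpr hsT, ?_⟩
    refine h s (hsT.trans hT) (fun T' hT' => ?_)
    obtain ⟨u, hu, hsu⟩ := hs hT'
    rw [h𝒜, mem_image] at hu
    obtain ⟨x, hx, rfl⟩ := hu
    refine ⟨x, hP hx, fun y hy => ?_⟩
    rw [← hsu]
    simp [hy, hsT hy]
  calc P.card = 𝒜.card := h1.symm
    _ ≤ 𝒜.shatterer.card := card_le_card_shatterer 𝒜
    _ ≤ _ := card_le_card h2
    _ ≤ _ := card_le_small T d

theorem two_mul_pow_le (e : ℕ) (he : 1 ≤ e) : 2 * e ^ (e + 1) ≤ (e + 1) ^ (e + 1) := by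
  have h : ∀ n : ℕ, e ^ (n + 1) + (n + 1) * e ^ n ≤ (e + 1) ^ (n + 1) := by
    intro n
    induction n with
    | zero => simp
    | succ n ih =>
      calc e ^ (n + 1 + 1) + (n + 1 + 1) * e ^ (n + 1)
          ≤ (e + 1) * (e ^ (n + 1) + (n + 1) * e ^ n) := by
            have : (e + 1) * (e ^ (n + 1) + (n + 1) * e ^ n)
              = e ^ (n + 1 + 1) + (n + 1 + 1) * e ^ (n + 1) + (n + 1) * e ^ n := by ring
            rw [this]
            exact Nat.le_add_right _ _
        _ ≤ (e + 1) * (e + 1) ^ (n + 1) := Nat.mul_le_mul_left _ ih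
        _ = (e + 1) ^ (n + 1 + 1) := by ring
  have h2 := h e
  have h3 : e ^ (e + 1) = e * e ^ e := by ring
  nlinarith [Nat.zero_le (e ^ e)]

/-- Sampling: `2aE` random columns separate `2^a` rows that pairwise differ on a `1/E` fraction. -/
theorem sample (F : X → Y → Bool) (P : Finset X) (B : Finset Y) (E a : ℕ) (hB : B.Nonempty)
    (hE : 2 ≤ E) (hP : P.card = 2 ^ a)
    (hsep : ∀ x ∈ P, ∀ x' ∈ P, x ≠ x' → B.card < E * (B.filter (fun y => F x y ≠ F x' y)).card) :
    ∃ σ : Fin (2 * a * E) → Y, (∀ i, σ i ∈ B) ∧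
      ∀ x ∈ P, ∀ x' ∈ P, x ≠ x' → ∃ i, F x (σ i) ≠ F x' (σ i) := by
  by_contra hcon
  push Not at hcon
  set m := 2 * a * E with hm
  obtain ⟨e, rfl⟩ := Nat.exists_eq_add_of_le' (show 1 ≤ E by omega)
  have hsub : Fintype.piFinset (fun _ : Fin m => B) ⊆ P.offDiag.biUnion
      (fun p => Fintype.piFinset (fun _ : Fin m => B.filter (fun y => F p.1 y = F p.2 y))) := by
    intro σ hσ
    rw [Fintype.mem_piFinset] at hσ
    obtain ⟨x, hx, x', hx', hne, hall⟩ := hcon σ hσ
    rw [mem_biUnion]
    refine ⟨(x, x'), by simp [hx, hx', hne], ?_⟩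
    rw [Fintype.mem_piFinset]
    intro i
    exact mem_filter.mpr ⟨hσ i, hall i⟩
  have hc := (card_le_card hsub).trans card_biUnion_le
  simp only [Fintype.card_piFinset_const] at hc
  have hterm : ∀ p ∈ P.offDiag, (e + 1) ^ m * ((B.filter (fun y => F p.1 y = F p.2 y)).card) ^ m ≤
      e ^ m * B.card ^ m := by
    intro p hp
    rw [mem_offDiag] at hp
    have h1 := hsep p.1 hp.1 p.2 hp.2.1 hp.2.2
    have h2 := card_filter_add_card_filter_not (s := B) (fun y => F p.1 y = F p.2 y)
    rw [← mul_pow, ← mul_pow]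
    refine Nat.pow_le_pow_left ?_ m
    have h3 : (B.filter (fun y => ¬ F p.1 y = F p.2 y)).card =
      (B.filter (fun y => F p.1 y ≠ F p.2 y)).card := rfl
    rw [h3] at h2
    nlinarith
  have h4 : (e + 1) ^ m * B.card ^ m ≤ P.offDiag.card * (e ^ m * B.card ^ m) := by
    calc (e + 1) ^ m * B.card ^ m ≤ (e + 1) ^ m *
        ∑ p ∈ P.offDiag, ((B.filter (fun y => F p.1 y = F p.2 y)).card) ^ m :=
          Nat.mul_le_mul_left _ hc
      _ = ∑ p ∈ P.offDiag, (e + 1) ^ m * ((B.filter (fun y => F p.1 y = F p.2 y)).card) ^ m :=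
          mul_sum _ _ _
      _ ≤ ∑ p ∈ P.offDiag, e ^ m * B.card ^ m := sum_le_sum hterm
      _ = _ := by simp
  have hBp : 0 < B.card ^ m := pow_pos (card_pos.mpr hB) m
  have h5 : (e + 1) ^ m ≤ P.offDiag.card * e ^ m := by
    have : (e + 1) ^ m * B.card ^ m ≤ (P.offDiag.card * e ^ m) * B.card ^ m := by
      rw [mul_assoc]; exact h4
    exact Nat.le_of_mul_le_mul_right this hBp
  have h6 : 2 ^ (2 * a) * e ^ m ≤ (e + 1) ^ m := by
    calc 2 ^ (2 * a) * e ^ m = (2 * e ^ (e + 1)) ^ (2 * a) := by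
          rw [mul_pow, ← pow_mul, hm]; ring_nf
      _ ≤ ((e + 1) ^ (e + 1)) ^ (2 * a) := Nat.pow_le_pow_left (two_mul_pow_le e (by omega)) _
      _ = (e + 1) ^ m := by rw [← pow_mul, hm]; ring_nf
  have h7 : 0 < e ^ m := pow_pos (by omega) m
  have h8 : 2 ^ (2 * a) ≤ P.offDiag.card :=
    Nat.le_of_mul_le_mul_right (h6.trans h5) h7
  rw [offDiag_card, hP] at h8
  have h9 : 2 ^ (2 * a) = 2 ^ a * 2 ^ a := by rw [two_mul, pow_add]
  have h10 : 0 < 2 ^ a := by positivity
  have h11 : 2 ^ a ≤ 2 ^ a * 2 ^ a := Nat.le_mul_self _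
  omega

theorem pack (F : X → Y → Bool) (A P : Finset X) (B : Finset Y) (d E a : ℕ) (hB : B.Nonempty)
    (hE : 2 ≤ E) (hPA : P ⊆ A)
    (hsep : ∀ x ∈ P, ∀ x' ∈ P, x ≠ x' → B.card < E * (B.filter (fun y => F x y ≠ F x' y)).card)
    (hVC : RowVC F A B d) (ha : (2 * a * E + 1) ^ d < 2 ^ a) : P.card < 2 ^ a := by
  by_contra hcon
  push Not at hcon
  obtain ⟨Q, hQP, hQ⟩ := exists_subset_card_eq hcon
  obtain ⟨σ, hσ, hσ2⟩ := sample F Q B E a hB hE hQ
    (fun x hx x' hx' hne => hsep x (hQP hx) x' (hQP hx') hne)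
  have h1 := sauer F A Q B (univ.image σ) d (by
      intro y hy
      rw [mem_image] at hy
      obtain ⟨i, -, rfl⟩ := hy
      exact hσ i) hVC (hQP.trans hPA) (by
      intro x hx x' hx' hall
      by_contra hne
      obtain ⟨i, hi⟩ := hσ2 x hx x' hx' hne
      exact hi (hall _ (mem_image_of_mem _ (mem_univ _))))
  have h2 : (univ.image σ).card ≤ 2 * a * E := by
    calc (univ.image σ).card ≤ (univ : Finset (Fin (2 * a * E))).card := card_image_le
      _ = 2 * a * E := by simp
  have h3 : ((univ.image σ).card + 1) ^ d ≤ (2 * a * E + 1) ^ d :=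
    Nat.pow_le_pow_left (by omega) d
  omega

/-- A dense cluster of rows. -/
theorem cluster (F : X → Y → Bool) (A : Finset X) (B : Finset Y) (d E a : ℕ) (hA : A.Nonempty)
    (hB : B.Nonempty) (hE : 2 ≤ E) (hVC : RowVC F A B d) (ha : (2 * a * E + 1) ^ d < 2 ^ a) :
    ∃ p ∈ A, ∃ A0 ⊆ A, p ∈ A0 ∧ A.card ≤ 2 ^ a * A0.card ∧
      ∀ x ∈ A0, E * (B.filter (fun y => F x y ≠ F p y)).card ≤ B.card := by
  classical
  -- separated subsets
  let sep : Finset X → Prop := fun P => ∀ x ∈ P, ∀ x' ∈ P, x ≠ x' →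
    B.card < E * (B.filter (fun y => F x y ≠ F x' y)).card
  obtain ⟨P, hP, hmax⟩ := exists_max_image (A.powerset.filter sep) card
    ⟨∅, mem_filter.mpr ⟨mem_powerset.mpr (empty_subset _), by intro x hx; simp at hx⟩⟩
  rw [mem_filter, mem_powerset] at hP
  obtain ⟨hPA, hPs⟩ := hP
  have hPc := pack F A P B d E a hB hE hPA hPs hVC ha
  set Cl : X → Finset X := fun p =>
    A.filter (fun x => E * (B.filter (fun y => F x y ≠ F p y)).card ≤ B.card) with hCl
  have hcov : A ⊆ P.biUnion Cl := by
    intro x hx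
    rw [mem_biUnion]
    by_contra hcon
    push Not at hcon
    have hfar : ∀ p ∈ P, B.card < E * (B.filter (fun y => F x y ≠ F p y)).card := by
      intro p hp
      have := hcon p hp
      simp only [hCl, mem_filter, hx, true_and, not_le] at this
      exact this
    have hxP : x ∉ P := by
      intro hxP
      have := hfar x hxP
      simp at this
    have hins : insert x P ∈ A.powerset.filter sep := by
      rw [mem_filter, mem_powerset]
      refine ⟨insert_subset hx hPA, ?_⟩
      intro u hu v hv huv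
      rw [mem_insert] at hu hv
      rcases hu with rfl | hu
      · rcases hv with rfl | hv
        · exact absurd rfl huv
        · exact hfar v hv
      · rcases hv with rfl | hv
        · have := hfar u hu
          have e : (B.filter (fun y => F u y ≠ F v y)) = (B.filter (fun y => F v y ≠ F u y)) := by
            ext y; simp [ne_comm]
          rw [e]
          exact this
        · exact hPs u hu v hv huv
    have := hmax _ hins
    rw [card_insert_of_notMem hxP] at this
    omega
  have hsum : A.card ≤ ∑ p ∈ P, (Cl p).card := (card_le_card hcov).trans card_biUnion_le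
  have hPne : P.Nonempty := by
    rw [nonempty_iff_ne_empty]
    rintro rfl
    simp at hsum
    exact hA.ne_empty hsum
  have : ∃ p ∈ P, A.card ≤ 2 ^ a * (Cl p).card := by
    by_contra hcon
    push Not at hcon
    have h1 : ∑ p ∈ P, 2 ^ a * (Cl p).card < ∑ p ∈ P, A.card := sum_lt_sum_of_nonempty hPne hcon
    rw [← mul_sum, sum_const, smul_eq_mul] at h1
    have h2 : 2 ^ a * A.card ≤ 2 ^ a * ∑ p ∈ P, (Cl p).card := Nat.mul_le_mul_left _ hsum
    have h3 : P.card * A.card ≤ 2 ^ a * A.card := Nat.mul_le_mul_right _ hPc.le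
    omega
  obtain ⟨p, hp, hpc⟩ := this
  refine ⟨p, hPA hp, Cl p, filter_subset _ _, ?_, hpc, ?_⟩
  · simp only [hCl, mem_filter]
    refine ⟨hPA hp, by simp⟩
  · intro x hx
    exact (mem_filter.mp hx).2

end

end Pool.Agent.H238R2.LR
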