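import Pool.Agent.H238R2.LR.NW

set_option autoImplicit false

namespace Pool.Agent.H238R2.LR

open Finset Pool.Agent.H630R2.LR

section
variable {X Y : Type} [Fintype X] [Fintype Y] [DecidableEq X] [DecidableEq Y]

/-- The parameter inequality used in the packing step. -/
theorem param (d r l : ℕ) (hl1 : 1 ≤ l) (hl : 20 * (d + 1) * (r + 1) ≤ 2 ^ l) :
    (2 * (2 * (d + 1) * l) * (4 * (r + 1)) + 1) ^ d < 2 ^ (2 * (d + 1) * l) := by
  have h1 : l ≤ 2 ^ l := Nat.lt_two_pow_self.le
  have h2 : 2 * (2 * (d + 1) * l) * (4 * (r + 1)) + 1 ≤ 2 ^ (2 * l) := by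
    have h3 : 1 ≤ 4 * (d + 1) * (r + 1) * l := by
      have : 0 < 4 * (d + 1) * (r + 1) * l := by positivity
      exact this
    calc 2 * (2 * (d + 1) * l) * (4 * (r + 1)) + 1
        ≤ 2 * (2 * (d + 1) * l) * (4 * (r + 1)) + 4 * (d + 1) * (r + 1) * l :=
          Nat.add_le_add_left h3 _
      _ = (20 * (d + 1) * (r + 1)) * l := by ring
      _ ≤ 2 ^ l * 2 ^ l := Nat.mul_le_mul hl h1
      _ = 2 ^ (2 * l) := by rw [two_mul, pow_add]
  calc (2 * (2 * (d + 1) * l) * (4 * (r + 1)) + 1) ^ d ≤ (2 ^ (2 * l)) ^ d :=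
        Nat.pow_le_pow_left h2 d
    _ = 2 ^ (2 * l * d) := by rw [← pow_mul]
    _ < 2 ^ (2 * (d + 1) * l) := by
        refine Nat.pow_lt_pow_right (by norm_num) ?_
        nlinarith

/-- The number of levels. -/
theorem levels (K r n : ℕ) (hK : 2 ≤ K) (hn : n ≤ 2 ^ (2 * r)) :
    (K - 1) ^ (K * (2 * r + 1)) * n < K ^ (K * (2 * r + 1)) := by
  obtain ⟨k, rfl⟩ := Nat.exists_eq_add_of_le' (show 1 ≤ K by omega)
  simp only [Nat.add_sub_cancel]
  have h1 : 2 * k ^ (k + 1) ≤ (k + 1) ^ (k + 1) := two_mul_pow_le k (by omega)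
  have h2 : 2 ^ (2 * r + 1) * k ^ ((k + 1) * (2 * r + 1)) ≤ (k + 1) ^ ((k + 1) * (2 * r + 1)) := by
    calc 2 ^ (2 * r + 1) * k ^ ((k + 1) * (2 * r + 1)) = (2 * k ^ (k + 1)) ^ (2 * r + 1) := by
          rw [mul_pow, ← pow_mul]
      _ ≤ ((k + 1) ^ (k + 1)) ^ (2 * r + 1) := Nat.pow_le_pow_left h1 _
      _ = _ := by rw [← pow_mul]
  have h3 : 0 < k ^ ((k + 1) * (2 * r + 1)) := pow_pos (by omega) _
  calc k ^ ((k + 1) * (2 * r + 1)) * n ≤ k ^ ((k + 1) * (2 * r + 1)) * 2 ^ (2 * r) :=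
        Nat.mul_le_mul_left _ hn
    _ < 2 ^ (2 * r + 1) * k ^ ((k + 1) * (2 * r + 1)) := by
        have e : 2 ^ (2 * r + 1) = 2 * 2 ^ (2 * r) := by ring
        have h4 : 0 < 2 ^ (2 * r) := by positivity
        rw [e]
        nlinarith [Nat.mul_pos h3 h4]
    _ ≤ _ := h2

theorem core [Nonempty X] [Nonempty Y] (F : X → Y → Bool) (d r l L : ℕ)
    (hr : (comm F).rank ≤ r) (hVC : LocVC F d) (hl1 : 1 ≤ l)
    (hl : 20 * (d + 1) * (r + 1) ≤ 2 ^ l) (hL : r + 1 ≤ 2 ^ L) :
    Proto F (6 * ((2 * (d + 1) * l + 2 + d + (L + 1)) * L) + 1) := by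
  set a := 2 * (d + 1) * l with ha
  have H := fun (A : Finset X) (B : Finset Y) (hA : A.Nonempty) (hB : B.Nonempty) =>
    rect F A B d a r hA hB hr hVC (by rw [ha]; exact param d r l hl1 hl)
  set K := 2 ^ (a + 2 + d) with hK
  have hK2 : 2 ≤ K := by
    calc 2 = 2 ^ 1 := by norm_num
      _ ≤ 2 ^ (a + 2 + d) := Nat.pow_le_pow_right (by norm_num) (by omega)
  obtain ⟨A, g, hgA, hg, hAc⟩ := reps F r hr
  obtain ⟨B, g', hgB, hg', hBc⟩ := reps (fun y x => F x y) r (by rw [rank_swap]; exact hr)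
  obtain ⟨t, ht1, ht2, ht3⟩ := nw F K (by omega) H L (K * (2 * r + 1)) A B
    (((finrank_V_le F A B).trans (Nat.add_le_add_right hr 1)).trans hL)
    (levels K r _ hK2 (by
      calc A.card * B.card ≤ 2 ^ r * 2 ^ r := Nat.mul_le_mul hAc hBc
        _ = 2 ^ (2 * r) := by rw [two_mul, pow_add]))
  have hsz : t.sz + 1 ≤ 2 ^ ((a + 2 + d + (L + 1)) * L) := by
    refine ht2.trans ?_
    rw [pow_mul]
    refine Nat.pow_le_pow_left ?_ L
    calc K * (2 * r + 1) + 1 ≤ K * (2 * r + 1) + K := by omega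
      _ = K * (2 * (r + 1)) := by ring
      _ ≤ K * (2 * 2 ^ L) := Nat.mul_le_mul_left _ (Nat.mul_le_mul_left _ hL)
      _ = 2 ^ (a + 2 + d + (L + 1)) := by rw [hK, pow_add 2 (a + 2 + d) (L + 1), pow_succ]; ring
  have hp := PT.balance' 1 _ t ht1 hsz
  have hp2 := hp.comap g g'
  have e : (fun x y => t.eval (g x) (g' y)) = F := by
    funext x y
    rw [ht3 _ (hgA x) _ (hgB y), hg]
    exact hg' y x
  rw [e] at hp2
  exact hp2

/-- The trivial protocol. -/
theorem trivialProto [Nonempty X] (F : X → Y → Bool) (r : ℕ) (hr : (comm F).rank ≤ r) :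
    Proto F (1 + r) := by
  obtain ⟨A, g, hgA, hg, hAc⟩ := reps F r hr
  refine Proto.sendX (Q := A) F (fun x => ⟨g x, hgA x⟩) r (by simpa using hAc)
    (fun q _ y => F q y) 1 (fun q => ?_) (fun x y => (hg x y).symm)
  exact Proto.bob _ (fun y => F q y) (fun v _ _ => v) 0
    (fun v => Proto.const _ v fun _ _ => rfl) (fun _ _ => rfl)

theorem final (F : X → Y → Bool) (d : ℕ) (hVC : LocVC F d) :
    ∃ c, Proto F c ∧
      (c : ℝ) ≤ 109 * (d + 1) * (Real.logb 2 ((comm F).rank : ℝ) + 1) ^ 2 := by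
  rcases isEmpty_or_nonempty X with hX | hX
  · exact ⟨0, Proto.const _ false (fun x => hX.elim x), by push_cast; positivity⟩
  rcases isEmpty_or_nonempty Y with hY | hY
  · exact ⟨0, Proto.const _ false (fun _ y => hY.elim y), by push_cast; positivity⟩
  set r := (comm F).rank with hr
  rcases Nat.eq_zero_or_pos r with h0 | hpos
  · have hz : ∀ x y, F x y = false := by
      have h1 := Matrix.rank_eq_finrank_span_row (comm F)
      rw [← hr, h0] at h1
      have h2 : Submodule.span ℝ (Set.range (comm F).row) = ⊥ :=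
        Submodule.finrank_eq_zero.mp h1.symm
      intro x y
      have h3 : (comm F).row x ∈ Submodule.span ℝ (Set.range (comm F).row) :=
        Submodule.subset_span ⟨x, rfl⟩
      rw [h2, Submodule.mem_bot] at h3
      have h4 := congrFun h3 y
      simp only [Matrix.row, Pool.Agent.H630R2.LR.comm, Matrix.of_apply, Pi.zero_apply] at h4
      cases h5 : F x y
      · rfl
      · rw [h5] at h4; simp at h4
    exact ⟨0, Proto.const _ false hz, by push_cast; positivity⟩
  · have hlog : 0 ≤ Real.logb 2 (r : ℝ) := Real.logb_nonneg (by norm_num) (by exact_mod_cast hpos)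
    by_cases hdr : r ≤ d
    · refine ⟨1 + r, trivialProto F r le_rfl, ?_⟩
      have h1 : ((1 + r : ℕ) : ℝ) ≤ (d : ℝ) + 1 := by
        push_cast
        have : (r : ℝ) ≤ d := by exact_mod_cast hdr
        linarith
      have h2 : (1 : ℝ) ≤ (Real.logb 2 (r : ℝ) + 1) ^ 2 := one_le_pow₀ (by linarith)
      have h3 : (0 : ℝ) ≤ (d : ℝ) + 1 := by positivity
      calc ((1 + r : ℕ) : ℝ) ≤ (d : ℝ) + 1 := h1
        _ ≤ 109 * (d + 1) * 1 := by linarith
        _ ≤ 109 * (d + 1) * (Real.logb 2 (r : ℝ) + 1) ^ 2 :=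
            mul_le_mul_of_nonneg_left h2 (by positivity)
    · push Not at hdr
      set L := Nat.log 2 r + 1 with hL
      have hrL : r + 1 ≤ 2 ^ L := Nat.lt_pow_succ_log_self (by norm_num) r
      have hl : 20 * (d + 1) * (r + 1) ≤ 2 ^ (5 + 2 * L) := by
        calc 20 * (d + 1) * (r + 1) ≤ 32 * 2 ^ L * 2 ^ L := by
              refine Nat.mul_le_mul (Nat.mul_le_mul (by norm_num) (by omega)) hrL
          _ = 2 ^ (5 + 2 * L) := by rw [two_mul, pow_add, pow_add]; ring
      refine ⟨_, core F d r (5 + 2 * L) L le_rfl hVC (by omega) hl hrL, ?_⟩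
      have hLr : (L : ℝ) ≤ Real.logb 2 (r : ℝ) + 1 := by
        rw [hL]
        push_cast
        have h7 := Real.natLog_le_logb r 2
        push_cast at h7
        linarith
      have hL1 : 1 ≤ L := by omega
      have hnat : 6 * ((2 * (d + 1) * (5 + 2 * L) + 2 + d + (L + 1)) * L) + 1 ≤
          109 * (d + 1) * L ^ 2 := by
        clear_value L
        obtain ⟨M, rfl⟩ : ∃ M, L = M + 1 := ⟨L - 1, by omega⟩
        ring_nf
        nlinarith [Nat.zero_le (d * M), Nat.zero_le (d * M ^ 2), Nat.zero_le (M ^ 2)]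
      calc ((6 * ((2 * (d + 1) * (5 + 2 * L) + 2 + d + (L + 1)) * L) + 1 : ℕ) : ℝ)
          ≤ ((109 * (d + 1) * L ^ 2 : ℕ) : ℝ) := by exact_mod_cast hnat
        _ = 109 * (d + 1) * (L : ℝ) ^ 2 := by push_cast; ring
        _ ≤ 109 * (d + 1) * (Real.logb 2 (r : ℝ) + 1) ^ 2 := by
            refine mul_le_mul_of_nonneg_left ?_ (by positivity)
            exact pow_le_pow_left₀ (by positivity) hLr 2

/-- `F` contains `H` as a submatrix. -/
def Contains {X Y : Type*} (F : X → Y → Bool) {k l : ℕ} (H : Fin k → Fin l → Bool) : Prop :=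
  ∃ (f : Fin k → X) (g : Fin l → Y), Function.Injective f ∧ Function.Injective g ∧
    ∀ i j, F (f i) (g j) = H i j

/-- A matrix whose rows shatter a set of more than `l + log₂ k` columns contains every `k × l`
matrix. -/
theorem rowVC_of_not_contains (F : X → Y → Bool) {k l : ℕ} (H : Fin k → Fin l → Bool)
    (h : ¬ Contains F H) (A : Finset X) (B : Finset Y) : RowVC F A B (l + Nat.clog 2 k) := by
  intro S _ hsh
  by_contra hcon
  push Not at hcon
  apply h
  -- choose the columns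
  have hle : l + Nat.clog 2 k ≤ S.card := hcon.le
  let e : Fin (l + Nat.clog 2 k) → Y := fun i => (S.equivFin.symm (Fin.castLE hle i) : Y)
  have heS : ∀ i, e i ∈ S := fun i => (S.equivFin.symm (Fin.castLE hle i)).2
  have hei : Function.Injective e := by
    intro i j hij
    have h1 : S.equivFin.symm (Fin.castLE hle i) = S.equivFin.symm (Fin.castLE hle j) :=
      Subtype.ext hij
    exact Fin.castLE_injective hle (S.equivFin.symm.injective h1)
  -- code words
  obtain ⟨code, hcode⟩ : ∃ code : Fin k → (Fin (Nat.clog 2 k) → Bool), Function.Injective code := by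
    have hcard : Fintype.card (Fin k) ≤ Fintype.card (Fin (Nat.clog 2 k) → Bool) := by
      simpa using Nat.le_pow_clog (by norm_num) k
    obtain ⟨ι⟩ := Function.Embedding.nonempty_of_card_le hcard
    exact ⟨ι, ι.injective⟩
  let pat : Fin k → Fin (l + Nat.clog 2 k) → Bool := fun i => Fin.append (H i) (code i)
  have hrow : ∀ i : Fin k, ∃ x, ∀ j, F x (e j) = pat i j := by
    intro i
    obtain ⟨x, _, hx⟩ := hsh ((univ.filter (fun j => pat i j = true)).image e) (by
      intro y hy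
      rw [mem_image] at hy
      obtain ⟨j, -, rfl⟩ := hy
      exact heS j)
    refine ⟨x, fun j => ?_⟩
    have h1 := hx (e j) (heS j)
    rw [mem_image] at h1
    refine Bool.eq_iff_iff.mpr (h1.trans ⟨?_, ?_⟩)
    · rintro ⟨j', hj', he⟩
      rw [hei he] at hj'
      exact (mem_filter.mp hj').2
    · intro hj
      exact ⟨j, mem_filter.mpr ⟨mem_univ _, hj⟩, rfl⟩
  choose f hf using hrow
  refine ⟨f, fun j => e (Fin.castAdd _ j), ?_, ?_, ?_⟩
  · intro i i' hii
    apply hcode
    funext j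
    have h1 := hf i (Fin.natAdd l j)
    have h2 := hf i' (Fin.natAdd l j)
    simp only [pat, Fin.append_right] at h1 h2
    rw [← h1, ← h2, hii]
  · exact hei.comp (Fin.castAdd_injective _ _)
  · intro i j
    rw [hf]
    simp [pat, Fin.append_left]

theorem locVC_of_rowVC (F : X → Y → Bool) (d : ℕ)
    (h : RowVC F univ univ d ∨ RowVC (fun y x => F x y) univ univ d) : LocVC F d := by
  intro A B _ _
  refine ⟨A, Subset.refl _, B, Subset.refl _, Nat.le_mul_of_pos_left _ (by positivity), ?_⟩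
  rcases h with h | h
  · left
    intro S _ hS
    refine h S (subset_univ _) (fun T hT => ?_)
    obtain ⟨x, -, hx⟩ := hS T hT
    exact ⟨x, mem_univ _, hx⟩
  · right
    intro S _ hS
    refine h S (subset_univ _) (fun T hT => ?_)
    obtain ⟨x, -, hx⟩ := hS T hT
    exact ⟨x, mem_univ _, hx⟩

theorem locVC_of_not_contains (F : X → Y → Bool) {k l : ℕ} (H : Fin k → Fin l → Bool)
    (h : ¬ Contains F H) : LocVC F (l + Nat.clog 2 k) := by
  intro A B _ _
  refine ⟨A, Subset.refl _, B, Subset.refl _, ?_, Or.inl (rowVC_of_not_contains F H h A B)⟩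
  exact Nat.le_mul_of_pos_left _ (by positivity)

end

end Pool.Agent.H238R2.LR
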