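import Pool.Agent.H630R2.LR.M1

set_option autoImplicit false

namespace Pool.Agent.H238R2.LR

open Pool.Agent.H630R2.LR

/-- Protocol trees whose leaves carry arbitrary functions. -/
inductive PT (X Y : Type) : Type
  | leaf (G : X → Y → Bool) : PT X Y
  | alice (α : X → Bool) (t0 t1 : PT X Y) : PT X Y
  | bob (β : Y → Bool) (t0 t1 : PT X Y) : PT X Y

namespace PT

variable {X Y : Type}

def eval : PT X Y → X → Y → Bool
  | leaf G, x, y => G x y
  | alice α t0 t1, x, y => if α x then t1.eval x y else t0.eval x y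
  | bob β t0 t1, x, y => if β y then t1.eval x y else t0.eval x y

/-- Number of internal nodes. -/
def sz : PT X Y → ℕ
  | leaf _ => 0
  | alice _ t0 t1 => t0.sz + t1.sz + 1
  | bob _ t0 t1 => t0.sz + t1.sz + 1

/-- All leaves have cost `≤ c`. -/
def Good (c : ℕ) : PT X Y → Prop
  | leaf G => Proto G c
  | alice _ t0 t1 => t0.Good c ∧ t1.Good c
  | bob _ t0 t1 => t0.Good c ∧ t1.Good c

theorem good_const (c : ℕ) : (leaf (fun _ _ => false) : PT X Y).Good c :=
  (Proto.const _ false fun _ _ => rfl).mono (Nat.zero_le _)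

/-- The naive protocol. -/
theorem naive (c : ℕ) : ∀ t : PT X Y, t.Good c → Proto t.eval (t.sz + c) := by
  intro t
  induction t with
  | leaf G =>
    intro h
    exact Proto.mono h (by simp [sz])
  | alice α t0 t1 ih0 ih1 =>
    intro h
    have h0 : Proto t0.eval (t0.sz + t1.sz + c) := (ih0 h.1).mono (by omega)
    have h1 : Proto t1.eval (t0.sz + t1.sz + c) := (ih1 h.2).mono (by omega)
    have := Proto.alice (alice α t0 t1).eval α (fun v => if v then t1.eval else t0.eval)
      (t0.sz + t1.sz + c) (fun v => by cases v <;> simpa) (fun x y => by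
        simp only [eval]
        cases α x <;> simp)
    have e : (alice α t0 t1).sz + c = t0.sz + t1.sz + c + 1 := by
      simp only [sz]; omega
    rw [e]
    exact this
  | bob β t0 t1 ih0 ih1 =>
    intro h
    have h0 : Proto t0.eval (t0.sz + t1.sz + c) := (ih0 h.1).mono (by omega)
    have h1 : Proto t1.eval (t0.sz + t1.sz + c) := (ih1 h.2).mono (by omega)
    have := Proto.bob (bob β t0 t1).eval β (fun v => if v then t1.eval else t0.eval)
      (t0.sz + t1.sz + c) (fun v => by cases v <;> simpa) (fun x y => by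
        simp only [eval]
        cases β y <;> simp)
    have e : (bob β t0 t1).sz + c = t0.sz + t1.sz + c + 1 := by
      simp only [sz]; omega
    rw [e]
    exact this

/-- A balanced cut: a subtree `s` reached on the rectangle `P × Q`. -/
theorem cut (c I : ℕ) : ∀ t : PT X Y, t.Good c → 2 * I < 3 * t.sz →
    ∃ (s t' : PT X Y) (P : X → Bool) (Q : Y → Bool), 3 * s.sz ≤ 2 * I ∧ I ≤ 3 * s.sz + 1 ∧
      s.sz + t'.sz = t.sz ∧ s.Good c ∧ t'.Good c ∧
      ∀ x y, t.eval x y = if P x && Q y then s.eval x y else t'.eval x y := by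
  intro t
  induction t with
  | leaf G =>
    intro _ h
    simp [sz] at h
  | alice α t0 t1 ih0 ih1 =>
    intro hg h
    simp only [sz] at h
    by_cases h01 : t0.sz ≤ t1.sz
    · by_cases h1 : 2 * I < 3 * t1.sz
      · obtain ⟨s, t', P, Q, a1, a2, a3, a4, a5, a6⟩ := ih1 hg.2 h1
        refine ⟨s, alice α t0 t', fun x => P x && α x, Q, a1, a2, ?_, a4, ⟨hg.1, a5⟩, ?_⟩
        · simp only [sz]; omega
        · intro x y
          simp only [eval, a6]
          cases α x <;> cases P x <;> cases Q y <;> simp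
      · refine ⟨t1, alice α t0 (leaf (fun _ _ => false)), α, fun _ => true, by omega, by omega, ?_,
          hg.2, ⟨hg.1, good_const c⟩, ?_⟩
        · simp only [sz]; omega
        · intro x y
          simp only [eval]
          cases α x <;> simp
    · by_cases h1 : 2 * I < 3 * t0.sz
      · obtain ⟨s, t', P, Q, a1, a2, a3, a4, a5, a6⟩ := ih0 hg.1 h1
        refine ⟨s, alice α t' t1, fun x => P x && !α x, Q, a1, a2, ?_, a4, ⟨a5, hg.2⟩, ?_⟩
        · simp only [sz]; omega
        · intro x y
          simp only [eval, a6]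
          cases α x <;> cases P x <;> cases Q y <;> simp
      · refine ⟨t0, alice α (leaf (fun _ _ => false)) t1, fun x => !α x, fun _ => true, by omega,
          by omega, ?_, hg.1, ⟨good_const c, hg.2⟩, ?_⟩
        · simp only [sz]; omega
        · intro x y
          simp only [eval]
          cases α x <;> simp
  | bob β t0 t1 ih0 ih1 =>
    intro hg h
    simp only [sz] at h
    by_cases h01 : t0.sz ≤ t1.sz
    · by_cases h1 : 2 * I < 3 * t1.sz
      · obtain ⟨s, t', P, Q, a1, a2, a3, a4, a5, a6⟩ := ih1 hg.2 h1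
        refine ⟨s, bob β t0 t', P, fun y => Q y && β y, a1, a2, ?_, a4, ⟨hg.1, a5⟩, ?_⟩
        · simp only [sz]; omega
        · intro x y
          simp only [eval, a6]
          cases β y <;> cases P x <;> cases Q y <;> simp
      · refine ⟨t1, bob β t0 (leaf (fun _ _ => false)), fun _ => true, β, by omega, by omega, ?_,
          hg.2, ⟨hg.1, good_const c⟩, ?_⟩
        · simp only [sz]; omega
        · intro x y
          simp only [eval]
          cases β y <;> simp
    · by_cases h1 : 2 * I < 3 * t0.sz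
      · obtain ⟨s, t', P, Q, a1, a2, a3, a4, a5, a6⟩ := ih0 hg.1 h1
        refine ⟨s, bob β t' t1, P, fun y => Q y && !β y, a1, a2, ?_, a4, ⟨a5, hg.2⟩, ?_⟩
        · simp only [sz]; omega
        · intro x y
          simp only [eval, a6]
          cases β y <;> cases P x <;> cases Q y <;> simp
      · refine ⟨t0, bob β (leaf (fun _ _ => false)) t1, fun _ => true, fun y => !β y, by omega,
          by omega, ?_, hg.1, ⟨good_const c, hg.2⟩, ?_⟩
        · simp only [sz]; omega
        · intro x y
          simp only [eval]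
          cases β y <;> simp

theorem cube_step (I J : ℕ) (hI : 5 ≤ I) (hJ : 3 * J ≤ 2 * I + 1) :
    2 * (J + 1) ^ 3 ≤ (I + 1) ^ 3 := by
  have h1 : 3 * (J + 1) ≤ 2 * (I + 2) := by omega
  have h2 : (3 * (J + 1)) ^ 3 ≤ (2 * (I + 2)) ^ 3 := Nat.pow_le_pow_left h1 3
  have h3 : 27 * (2 * (J + 1) ^ 3) ≤ 16 * (I + 2) ^ 3 := by
    have e1 : (3 * (J + 1)) ^ 3 = 27 * (J + 1) ^ 3 := by ring
    have e2 : (2 * (I + 2)) ^ 3 = 8 * (I + 2) ^ 3 := by ring
    rw [e1, e2] at h2
    omega
  have h4 : 16 * (I + 2) ^ 3 ≤ 27 * (I + 1) ^ 3 := by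
    obtain ⟨k, rfl⟩ := Nat.exists_eq_add_of_le hI
    ring_nf
    nlinarith [Nat.zero_le k, Nat.zero_le (k ^ 2), Nat.zero_le (k ^ 3)]
  omega

/-- Balancing: a protocol tree with `I` internal nodes can be replaced by one of depth `O(log I)`. -/
theorem balance (c : ℕ) : ∀ (k : ℕ) (t : PT X Y), t.Good c → (t.sz + 1) ^ 3 ≤ 2 ^ k →
    Proto t.eval (2 * k + c) := by
  intro k
  induction k using Nat.strong_induction_on with
  | _ k ih =>
    intro t hg ht
    by_cases h5 : 5 ≤ t.sz
    · obtain ⟨s, t', P, Q, a1, a2, a3, a4, a5, a6⟩ := cut c t.sz t hg (by omega)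
      have hk : 1 ≤ k := by
        rcases Nat.eq_zero_or_pos k with rfl | h
        · have : 6 ^ 3 ≤ (t.sz + 1) ^ 3 := Nat.pow_le_pow_left (by omega) 3
          omega
        · exact h
      obtain ⟨k', rfl⟩ := Nat.exists_eq_add_of_le' hk
      have hs : (s.sz + 1) ^ 3 ≤ 2 ^ k' := by
        have := cube_step t.sz s.sz h5 (by omega)
        have e2 : 2 ^ (k' + 1) = 2 * 2 ^ k' := by ring
        omega
      have ht' : (t'.sz + 1) ^ 3 ≤ 2 ^ k' := by
        have := cube_step t.sz t'.sz h5 (by omega)
        have e2 : 2 ^ (k' + 1) = 2 * 2 ^ k' := by ring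
        omega
      have b1 := ih k' (by omega) s a4 hs
      have b2 := ih k' (by omega) t' a5 ht'
      have e : 2 * (k' + 1) + c = (2 * k' + c) + 1 + 1 := by ring
      rw [e]
      refine Proto.alice _ P (fun v x y => if v && Q y then s.eval x y else t'.eval x y) _
        (fun v => ?_) (fun x y => a6 x y)
      refine Proto.bob _ Q (fun w x y => if v && w then s.eval x y else t'.eval x y) _
        (fun w => ?_) (fun x y => rfl)
      cases v <;> cases w <;> simp <;> assumption
    · refine (naive c t hg).mono ?_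
      have h6 : t.sz ≤ 2 * k := by
        have h7 : t.sz + 1 ≤ 5 := by omega
        by_contra h
        push Not at h
        have h8 : k ≤ 1 := by omega
        have h9 : 2 ^ k ≤ 2 ^ 1 := Nat.pow_le_pow_right (by norm_num) h8
        have h10 : 2 ^ 3 ≤ (t.sz + 1) ^ 3 := Nat.pow_le_pow_left (by omega) 3
        omega
      omega

theorem balance' (c j : ℕ) (t : PT X Y) (hg : t.Good c) (ht : t.sz + 1 ≤ 2 ^ j) :
    Proto t.eval (6 * j + c) := by
  have := balance c (3 * j) t hg (by
    calc (t.sz + 1) ^ 3 ≤ (2 ^ j) ^ 3 := Nat.pow_le_pow_left ht 3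
      _ = 2 ^ (3 * j) := by rw [← pow_mul, mul_comm])
  have e : 6 * j + c = 2 * (3 * j) + c := by ring
  rw [e]
  exact this

end PT

end Pool.Agent.H238R2.LR
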