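import Pool.Agent.H238R2.LR.Rect
import Pool.Agent.H238R2.LR.Tree

set_option autoImplicit false

namespace Pool.Agent.H238R2.LR

open Finset Pool.Agent.H630R2.LR

section
variable {X Y : Type} [Fintype X] [Fintype Y] [DecidableEq X] [DecidableEq Y]

theorem finrank_V_mono_right (F : X → Y → Bool) (A : Finset X) (B B' : Finset Y) (h : B' ⊆ B) :
    Module.finrank ℝ (V F A B') ≤ Module.finrank ℝ (V F A B) := by
  rw [← map_res_V F A B B' h]
  exact Submodule.finrank_map_le _ _

theorem finrank_V_mono_left (F : X → Y → Bool) (A A' : Finset X) (B : Finset Y) (h : A' ⊆ A) :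
    Module.finrank ℝ (V F A' B) ≤ Module.finrank ℝ (V F A B) :=
  Submodule.finrank_mono (V_mono F A A' B h)

/-- If `V` has dimension at most one, `F x y` does not depend on `y ∈ B`. -/
theorem const_of_finrank (F : X → Y → Bool) (A : Finset X) (B : Finset Y)
    (h : Module.finrank ℝ (V F A B) ≤ 1) : ∀ x ∈ A, ∀ y ∈ B, ∀ y' ∈ B, F x y = F x y' := by
  intro x hx y hy y' hy'
  rw [finrank_le_one_iff] at h
  obtain ⟨⟨v, hv⟩, hall⟩ := h
  obtain ⟨c, hc⟩ := hall ⟨rowv F B x, Submodule.subset_span
    (Set.mem_insert_of_mem _ ⟨x, by exact_mod_cast hx, rfl⟩)⟩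
  obtain ⟨c', hc'⟩ := hall ⟨onev B, Submodule.subset_span (Set.mem_insert _ _)⟩
  have e1 : c • v = rowv F B x := congrArg Subtype.val hc
  have e2 : c' • v = onev B := congrArg Subtype.val hc'
  have h1 : c' * v y = 1 := by
    have := congrFun e2 y
    simpa [onev, hy] using this
  have h2 : c' * v y' = 1 := by
    have := congrFun e2 y'
    simpa [onev, hy'] using this
  have h3 : v y = v y' := by
    have hc0 : c' ≠ 0 := by
      rintro rfl
      simp at h1
    exact mul_left_cancel₀ hc0 (h1.trans h2.symm)
  have h4 : c * v y = if F x y then 1 else 0 := by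
    have := congrFun e1 y
    simpa [rowv, hy] using this
  have h5 : c * v y' = if F x y' then 1 else 0 := by
    have := congrFun e1 y'
    simpa [rowv, hy'] using this
  rw [h3, h5] at h4
  cases hF : F x y <;> cases hF' : F x y' <;> simp_all

theorem shrink (K s a a' p : ℕ) (hK : 1 ≤ K) (h1 : a ≤ K * p) (h2 : a' + p ≤ a)
    (hs : (K - 1) ^ (s + 1) * a < K ^ (s + 1)) : (K - 1) ^ s * a' < K ^ s := by
  obtain ⟨k, rfl⟩ := Nat.exists_eq_add_of_le' hK
  simp only [Nat.add_sub_cancel] at hs ⊢
  have h3 : (k + 1) * a' ≤ k * a := by nlinarith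
  have h4 : (k + 1) * (k ^ s * a') ≤ k ^ (s + 1) * a := by
    calc (k + 1) * (k ^ s * a') = k ^ s * ((k + 1) * a') := by ring
      _ ≤ k ^ s * (k * a) := Nat.mul_le_mul_left _ h3
      _ = k ^ (s + 1) * a := by ring
  have h5 : (k + 1) * (k ^ s * a') < (k + 1) * (k + 1) ^ s := by
    calc (k + 1) * (k ^ s * a') ≤ k ^ (s + 1) * a := h4
      _ < (k + 1) ^ (s + 1) := hs
      _ = (k + 1) * (k + 1) ^ s := by ring
  exact Nat.lt_of_mul_lt_mul_left h5

theorem leaf_empty (F : X → Y → Bool) (A : Finset X) (B : Finset Y) (n : ℕ) (hn : 1 ≤ n)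
    (h : A.card * B.card = 0) : ∃ t : PT X Y, t.Good 1 ∧ t.sz + 1 ≤ n ∧
      ∀ x ∈ A, ∀ y ∈ B, t.eval x y = F x y := by
  refine ⟨PT.leaf (fun _ _ => false), PT.good_const 1, by simpa [PT.sz] using hn, ?_⟩
  intro x hx y hy
  rcases Nat.mul_eq_zero.mp h with h | h
  · rw [card_eq_zero] at h
    subst h
    simp at hx
  · rw [card_eq_zero] at h
    subst h
    simp at hy

theorem nw (F : X → Y → Bool) (K : ℕ) (hK : 1 ≤ K)
    (H : ∀ (A : Finset X) (B : Finset Y), A.Nonempty → B.Nonempty →
      ∃ A' ⊆ A, ∃ B' ⊆ B, ∃ b : Bool, (∀ x ∈ A', ∀ y ∈ B', F x y = b) ∧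
        A.card * B.card ≤ K * (A'.card * B'.card)) :
    ∀ (ρ s : ℕ) (A : Finset X) (B : Finset Y), Module.finrank ℝ (V F A B) ≤ 2 ^ ρ →
      (K - 1) ^ s * (A.card * B.card) < K ^ s →
      ∃ t : PT X Y, t.Good 1 ∧ t.sz + 1 ≤ (s + 1) ^ ρ ∧
        ∀ x ∈ A, ∀ y ∈ B, t.eval x y = F x y := by
  intro ρ
  induction ρ with
  | zero =>
    intro s A B hD _
    rcases B.eq_empty_or_nonempty with rfl | ⟨y0, hy0⟩
    · exact leaf_empty F A ∅ _ (by simp) (by simp)
    · refine ⟨PT.leaf (fun x _ => F x y0), ?_, by simp [PT.sz], ?_⟩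
      · exact Proto.alice _ (fun x => F x y0) (fun v _ _ => v) 0
          (fun v => Proto.const _ v fun _ _ => rfl) (fun _ _ => rfl)
      · intro x hx y hy
        exact const_of_finrank F A B (by simpa using hD) x hx y0 hy0 y hy
  | succ ρ ihρ =>
    intro s
    induction s with
    | zero =>
      intro A B _ hs
      exact leaf_empty F A B _ (by simp) (by simpa using hs)
    | succ s ihs =>
      intro A B hD hs
      by_cases hem : A.card * B.card = 0
      · exact leaf_empty F A B _ (Nat.one_le_pow _ _ (by omega)) hem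
      · have hpos : 0 < A.card * B.card := Nat.pos_of_ne_zero hem
        have hAn : A.Nonempty := card_pos.mp (Nat.pos_of_mul_pos_right hpos)
        have hBn : B.Nonempty := card_pos.mp (Nat.pos_of_mul_pos_left hpos)
        obtain ⟨A', hA', B', hB', b, hb, hc⟩ := H A B hAn hBn
        have hh := halving F A A' B B' b hA' hB' hb
        have hcount : (s + 1) ^ (ρ + 1) + (s + 1 + 1) ^ ρ ≤ (s + 1 + 1) ^ (ρ + 1) := by
          have h1 : (s + 1) ^ ρ ≤ (s + 1 + 1) ^ ρ := Nat.pow_le_pow_left (by omega) ρ
          calc (s + 1) ^ (ρ + 1) + (s + 1 + 1) ^ ρ = (s + 1) * (s + 1) ^ ρ + (s + 1 + 1) ^ ρ := by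
                ring
            _ ≤ (s + 1) * (s + 1 + 1) ^ ρ + (s + 1 + 1) ^ ρ := by
                exact Nat.add_le_add_right (Nat.mul_le_mul_left _ h1) _
            _ = (s + 1 + 1) ^ (ρ + 1) := by ring
        have hor : Module.finrank ℝ (V F A' B) ≤ 2 ^ ρ ∨ Module.finrank ℝ (V F A B') ≤ 2 ^ ρ := by
          by_contra hcon
          push Not at hcon
          have : 2 ^ (ρ + 1) = 2 * 2 ^ ρ := by ring
          omega
        rcases hor with h | h
        · obtain ⟨t1, g1, c1, e1⟩ := ihρ (s + 1) A' B h (by
            refine lt_of_le_of_lt (Nat.mul_le_mul_left _ (Nat.mul_le_mul_right _ ?_)) hs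
            exact card_le_card hA')
          obtain ⟨t0, g0, c0, e0⟩ := ihs (A \ A') B
            ((finrank_V_mono_left F A (A \ A') B sdiff_subset).trans hD) (by
            refine shrink K s (A.card * B.card) _ (A'.card * B'.card) hK hc ?_ hs
            have h1 : A'.card * B'.card ≤ A'.card * B.card :=
              Nat.mul_le_mul_left _ (card_le_card hB')
            have h2 : (A \ A').card + A'.card = A.card := card_sdiff_add_card_eq_card hA'
            calc (A \ A').card * B.card + A'.card * B'.card
                ≤ (A \ A').card * B.card + A'.card * B.card := Nat.add_le_add_left h1 _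
              _ = A.card * B.card := by rw [← h2]; ring)
          refine ⟨PT.alice (fun x => decide (x ∈ A')) t0 t1, ⟨g0, g1⟩, ?_, ?_⟩
          · simp only [PT.sz]
            omega
          · intro x hx y hy
            simp only [PT.eval]
            by_cases hxA : x ∈ A'
            · simp only [hxA, decide_true, if_true]
              exact e1 x hxA y hy
            · simp only [hxA, decide_false, Bool.false_eq_true, if_false]
              exact e0 x (mem_sdiff.mpr ⟨hx, hxA⟩) y hy
        · obtain ⟨t1, g1, c1, e1⟩ := ihρ (s + 1) A B' h (by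
            refine lt_of_le_of_lt (Nat.mul_le_mul_left _ (Nat.mul_le_mul_left _ ?_)) hs
            exact card_le_card hB')
          obtain ⟨t0, g0, c0, e0⟩ := ihs A (B \ B')
            ((finrank_V_mono_right F A B (B \ B') sdiff_subset).trans hD) (by
            refine shrink K s (A.card * B.card) _ (A'.card * B'.card) hK hc ?_ hs
            have h1 : A'.card * B'.card ≤ A.card * B'.card :=
              Nat.mul_le_mul_right _ (card_le_card hA')
            have h2 : (B \ B').card + B'.card = B.card := card_sdiff_add_card_eq_card hB'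
            calc A.card * (B \ B').card + A'.card * B'.card
                ≤ A.card * (B \ B').card + A.card * B'.card := Nat.add_le_add_left h1 _
              _ = A.card * B.card := by rw [← h2]; ring)
          refine ⟨PT.bob (fun y => decide (y ∈ B')) t0 t1, ⟨g0, g1⟩, ?_, ?_⟩
          · simp only [PT.sz]
            omega
          · intro x hx y hy
            simp only [PT.eval]
            by_cases hyB : y ∈ B'
            · simp only [hyB, decide_true, if_true]
              exact e1 x hx y hyB
            · simp only [hyB, decide_false, Bool.false_eq_true, if_false]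
              exact e0 x hx y (mem_sdiff.mpr ⟨hy, hyB⟩)

/-- Representatives of the distinct rows; there are at most `2^r` of them. -/
theorem reps [Nonempty X] (F : X → Y → Bool) (r : ℕ) (hr : (comm F).rank ≤ r) :
    ∃ (A : Finset X) (g : X → X), (∀ x, g x ∈ A) ∧ (∀ x y, F (g x) y = F x y) ∧
      A.card ≤ 2 ^ r := by
  obtain ⟨T, -, hTc, hTs⟩ := small_span (univ : Finset Y) (fun y => (comm F).col y) r
    (Submodule.span ℝ (Set.range (comm F).col)) (fun y _ => Submodule.subset_span ⟨y, rfl⟩)
    (by rw [← Matrix.rank_eq_finrank_span_cols]; exact hr)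
  set π : X → Finset Y := fun x => T.filter (fun y => F x y = true) with hπ
  have hkey : ∀ x x', π x = π x' → ∀ y, F x y = F x' y := by
    intro x x' h y
    have h0 : ∀ f ∈ Submodule.span ℝ ((fun y => (comm F).col y) '' (T : Set Y)), f x = f x' := by
      intro f hf
      induction hf using Submodule.span_induction with
      | mem f hf =>
        obtain ⟨t, ht, rfl⟩ := hf
        have ht' : t ∈ T := by exact_mod_cast ht
        have h1 : (t ∈ π x) ↔ (t ∈ π x') := by rw [h]
        simp only [hπ, mem_filter, ht', true_and] at h1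
        have h2 : F x t = F x' t := Bool.eq_iff_iff.mpr h1
        simp [Matrix.col, Pool.Agent.H630R2.LR.comm, h2]
      | zero => rfl
      | add f g _ _ hf hg => rw [Pi.add_apply, Pi.add_apply, hf, hg]
      | smul c f _ hf => rw [Pi.smul_apply, Pi.smul_apply, hf]
    have h3 := h0 _ (hTs y (mem_univ y))
    simp only [Matrix.col, Pool.Agent.H630R2.LR.comm, Matrix.transpose_apply, Matrix.of_apply] at h3
    cases h4 : F x y <;> cases h5 : F x' y <;> simp_all
  refine ⟨T.powerset.image (Function.invFun π), fun x => Function.invFun π (π x), ?_, ?_, ?_⟩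
  · intro x
    exact mem_image_of_mem _ (mem_powerset.mpr (filter_subset _ _))
  · intro x y
    exact hkey _ _ (Function.invFun_eq ⟨x, rfl⟩) y
  · calc (T.powerset.image (Function.invFun π)).card ≤ T.powerset.card := card_image_le
      _ = 2 ^ T.card := card_powerset T
      _ ≤ 2 ^ r := Nat.pow_le_pow_right (by norm_num) hTc

end

end Pool.Agent.H238R2.LR
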