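import Pool.Agent.H238R2.LR.Pack
import Pool.Agent.H630R2.LR.Defs

set_option autoImplicit false

namespace Pool.Agent.H238R2.LR

open Finset Pool.Agent.H630R2.LR

section
variable {X Y : Type} [Fintype X] [Fintype Y] [DecidableEq X] [DecidableEq Y]

/-- The row of `x` restricted to `B`. -/
noncomputable def rowv (F : X → Y → Bool) (B : Finset Y) (x : X) : Y → ℝ :=
  fun y => if y ∈ B then (if F x y then 1 else 0) else 0

noncomputable def onev (B : Finset Y) : Y → ℝ := fun y => if y ∈ B then 1 else 0

/-- Span of the rows of the submatrix and the constant row. -/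
noncomputable def V (F : X → Y → Bool) (A : Finset X) (B : Finset Y) : Submodule ℝ (Y → ℝ) :=
  Submodule.span ℝ (insert (onev B) ((rowv F B) '' (A : Set X)))

/-- Restriction to `B`. -/
def res (B : Finset Y) : (Y → ℝ) →ₗ[ℝ] (Y → ℝ) where
  toFun f := fun y => if y ∈ B then f y else 0
  map_add' f g := by
    funext y
    simp only [Pi.add_apply]
    split_ifs <;> simp
  map_smul' c f := by
    funext y
    simp only [Pi.smul_apply, RingHom.id_apply, smul_eq_mul]
    split_ifs <;> simp

theorem res_rowv (F : X → Y → Bool) (B B' : Finset Y) (h : B' ⊆ B) (x : X) :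
    res B' (rowv F B x) = rowv F B' x := by
  funext y
  simp only [res, rowv, LinearMap.coe_mk, AddHom.coe_mk]
  by_cases hy : y ∈ B'
  · simp [hy, h hy]
  · simp [hy]

theorem res_onev (B B' : Finset Y) (h : B' ⊆ B) : res B' (onev B) = onev B' := by
  funext y
  simp only [res, onev, LinearMap.coe_mk, AddHom.coe_mk]
  by_cases hy : y ∈ B'
  · simp [hy, h hy]
  · simp [hy]

theorem map_res_V (F : X → Y → Bool) (A : Finset X) (B B' : Finset Y) (h : B' ⊆ B) :
    (V F A B).map (res B') = V F A B' := by
  unfold V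
  rw [Submodule.map_span, Set.image_insert_eq, res_onev B B' h, Set.image_image]
  congr 2
  refine Set.image_congr (fun x _ => res_rowv F B B' h x)

theorem V_mono (F : X → Y → Bool) (A A' : Finset X) (B : Finset Y) (h : A' ⊆ A) :
    V F A' B ≤ V F A B := by
  unfold V
  refine Submodule.span_mono (Set.insert_subset_insert (Set.image_mono (by exact_mod_cast h)))

theorem finrank_V_le (F : X → Y → Bool) (A : Finset X) (B : Finset Y) :
    Module.finrank ℝ (V F A B) ≤ (comm F).rank + 1 := by
  have h1 : V F A B ≤ V F univ B := V_mono F univ A B (subset_univ _)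
  have h2 : Module.finrank ℝ (V F univ B) ≤ Module.finrank ℝ (V F univ univ) := by
    rw [← map_res_V F univ univ B (subset_univ _)]
    exact Submodule.finrank_map_le _ _
  have h3 : V F univ univ ≤
      Submodule.span ℝ (Set.range (comm F).row) ⊔ Submodule.span ℝ {onev (univ : Finset Y)} := by
    unfold V
    rw [Submodule.span_le]
    intro v hv
    rcases hv with rfl | ⟨x, -, rfl⟩
    · exact Submodule.mem_sup_right (Submodule.subset_span rfl)
    · refine Submodule.mem_sup_left (Submodule.subset_span ⟨x, ?_⟩)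
      funext y
      simp [rowv, Pool.Agent.H630R2.LR.comm, Matrix.row]
  calc Module.finrank ℝ (V F A B) ≤ Module.finrank ℝ (V F univ B) := Submodule.finrank_mono h1
    _ ≤ Module.finrank ℝ (V F univ univ) := h2
    _ ≤ Module.finrank ℝ ↥(Submodule.span ℝ (Set.range (comm F).row) ⊔
        Submodule.span ℝ {onev (univ : Finset Y)}) := Submodule.finrank_mono h3
    _ ≤ Module.finrank ℝ (Submodule.span ℝ (Set.range (comm F).row)) +
        Module.finrank ℝ (Submodule.span ℝ {onev (univ : Finset Y)}) :=
          Submodule.finrank_add_le_finrank_add_finrank _ _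
    _ ≤ (comm F).rank + 1 := by
        rw [← Matrix.rank_eq_finrank_span_row]
        refine Nat.add_le_add_left ?_ _
        exact (finrank_span_le_card (R := ℝ) ({onev (univ : Finset Y)} : Set (Y → ℝ))).trans
          (by simp)

/-- The halving step of Nisan–Wigderson. -/
theorem halving (F : X → Y → Bool) (A A' : Finset X) (B B' : Finset Y) (b : Bool) (hA : A' ⊆ A)
    (hB : B' ⊆ B) (hc : ∀ x ∈ A', ∀ y ∈ B', F x y = b) :
    Module.finrank ℝ (V F A' B) + Module.finrank ℝ (V F A B') ≤
      Module.finrank ℝ (V F A B) + 1 := by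
  set K : Submodule ℝ (Y → ℝ) := V F A B ⊓ LinearMap.ker (res B') with hK
  have h1 : Module.finrank ℝ (V F A B') + Module.finrank ℝ K = Module.finrank ℝ (V F A B) := by
    have := LinearMap.finrank_range_add_finrank_ker ((res B').domRestrict (V F A B))
    rw [LinearMap.range_domRestrict, map_res_V F A B B' hB] at this
    rw [← this]
    congr 1
    have e : K = (LinearMap.ker ((res B').domRestrict (V F A B))).map (V F A B).subtype := by
      ext f
      simp only [hK, Submodule.mem_inf, Submodule.mem_map, LinearMap.mem_ker]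
      constructor
      · rintro ⟨hf, hf2⟩
        exact ⟨⟨f, hf⟩, hf2, rfl⟩
      · rintro ⟨⟨g, hg⟩, hg2, rfl⟩
        exact ⟨hg, hg2⟩
    rw [e]
    exact Submodule.finrank_map_subtype_eq _ _
  have h2 : V F A' B ≤ K ⊔ Submodule.span ℝ {onev B} := by
    unfold V
    rw [Submodule.span_le]
    intro v hv
    rcases hv with rfl | ⟨x, hx, rfl⟩
    · exact Submodule.mem_sup_right (Submodule.subset_span rfl)
    · have hx' : x ∈ A' := by exact_mod_cast hx
      have e : rowv F B x = (rowv F B x - (if b then (1 : ℝ) else 0) • onev B) +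
        (if b then (1 : ℝ) else 0) • onev B := by abel
      rw [e]
      refine Submodule.add_mem_sup ?_ (Submodule.smul_mem _ _ (Submodule.subset_span rfl))
      refine Submodule.mem_inf.mpr ⟨?_, ?_⟩
      · refine Submodule.sub_mem _ (Submodule.subset_span ?_)
          (Submodule.smul_mem _ _ (Submodule.subset_span ?_))
        · exact Set.mem_insert_of_mem _ ⟨x, by exact_mod_cast hA hx', rfl⟩
        · exact Set.mem_insert _ _
      · rw [LinearMap.mem_ker, map_sub, map_smul, res_rowv F B B' hB, res_onev B B' hB]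
        funext y
        simp only [rowv, onev, Pi.sub_apply, Pi.smul_apply, smul_eq_mul, Pi.zero_apply]
        by_cases hy : y ∈ B'
        · simp [hy, hc x hx' y hy]
        · simp [hy]
  have h3 : Module.finrank ℝ (V F A' B) ≤ Module.finrank ℝ K + 1 := by
    calc Module.finrank ℝ (V F A' B) ≤ Module.finrank ℝ ↥(K ⊔ Submodule.span ℝ {onev B}) :=
          Submodule.finrank_mono h2
      _ ≤ Module.finrank ℝ K + Module.finrank ℝ (Submodule.span ℝ {onev B}) :=
          Submodule.finrank_add_le_finrank_add_finrank _ _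
      _ ≤ Module.finrank ℝ K + 1 := by
          refine Nat.add_le_add_left ?_ _
          exact (finrank_span_le_card (R := ℝ) ({onev B} : Set (Y → ℝ))).trans (by simp)
  omega

/-- A finite family of vectors contains a small spanning subfamily. -/
theorem small_span {W : Type} [AddCommGroup W] [Module ℝ W] (A : Finset X)
    (v : X → W) (n : ℕ) (U : Submodule ℝ W) [FiniteDimensional ℝ U] (hv : ∀ x ∈ A, v x ∈ U)
    (hU : Module.finrank ℝ U ≤ n) :
    ∃ T ⊆ A, T.card ≤ n ∧ ∀ x ∈ A, v x ∈ Submodule.span ℝ (v '' (T : Set X)) := by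
  obtain ⟨b, hbA, -, hspan, hli⟩ := exists_linearIndepOn_extension (K := ℝ) (v := v)
    (linearIndepOn_empty ℝ v) (Set.empty_subset (A : Set X))
  have hbf : b.Finite := A.finite_toSet.subset hbA
  refine ⟨hbf.toFinset, ?_, ?_, ?_⟩
  · intro x hx
    have := hbA (hbf.mem_toFinset.mp hx)
    exact_mod_cast this
  · have h1 : LinearIndependent ℝ (fun x : b => (⟨v x, hv x (by exact_mod_cast hbA x.2)⟩ : U)) := by
      have h2 : LinearIndependent ℝ (fun x : b => v x) := hli
      exact LinearIndependent.of_comp U.subtype h2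
    haveI : Fintype b := hbf.fintype
    have h3 := h1.fintype_card_le_finrank
    have h4 : hbf.toFinset.card = Fintype.card b := by
      rw [Set.Finite.card_toFinset]
    rw [h4]
    exact h3.trans hU
  · intro x hx
    have : v x ∈ Submodule.span ℝ (v '' b) := hspan ⟨x, by exact_mod_cast hx, rfl⟩
    simpa using this

/-- Large monochromatic rectangle from small VC dimension of the rows and small rank. -/
theorem rect_row (F : X → Y → Bool) (A : Finset X) (B : Finset Y) (d a r : ℕ) (hA : A.Nonempty)
    (hB : B.Nonempty) (hr : (comm F).rank ≤ r) (hVC : RowVC F A B d)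
    (ha : (2 * a * (4 * (r + 1)) + 1) ^ d < 2 ^ a) :
    ∃ A' ⊆ A, ∃ B' ⊆ B, ∃ b : Bool, (∀ x ∈ A', ∀ y ∈ B', F x y = b) ∧
      A.card * B.card ≤ 2 ^ (a + 2) * (A'.card * B'.card) := by
  obtain ⟨p, hp, A0, hA0, hpA0, hcard, hcl⟩ :=
    cluster F A B d (4 * (r + 1)) a hA hB (by omega) hVC ha
  -- majority value
  obtain ⟨b, hb⟩ : ∃ b : Bool, B.card ≤ 2 * (B.filter (fun y => F p y = b)).card := by
    by_contra hcon
    push Not at hcon
    have h1 := hcon true
    have h2 := hcon false
    have h3 := card_filter_add_card_filter_not (s := B) (fun y => F p y = true)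
    have h4 : (B.filter (fun y => ¬ F p y = true)) = (B.filter (fun y => F p y = false)) := by
      ext y; simp
    rw [h4] at h3
    omega
  set Bb := B.filter (fun y => F p y = b) with hBb
  let G : X → (Y → ℝ) := fun x y => if y ∈ Bb then (if F x y = b then 0 else 1) else 0
  have hGV : ∀ x ∈ A0, G x ∈ V F A0 Bb := by
    intro x hx
    have h1 : rowv F Bb x ∈ V F A0 Bb :=
      Submodule.subset_span (Set.mem_insert_of_mem _ ⟨x, by exact_mod_cast hx, rfl⟩)
    have h2 : onev Bb ∈ V F A0 Bb := Submodule.subset_span (Set.mem_insert _ _)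
    cases b
    · have e : G x = rowv F Bb x := by
        funext y
        simp only [G, rowv]
        split_ifs <;> simp_all
      rw [e]; exact h1
    · have e : G x = onev Bb - rowv F Bb x := by
        funext y
        simp only [G, rowv, onev, Pi.sub_apply]
        split_ifs <;> simp_all
      rw [e]; exact Submodule.sub_mem _ h2 h1
  obtain ⟨T, hTA, hTc, hTs⟩ := small_span A0 G (r + 1) (V F A0 Bb) hGV
    ((finrank_V_le F A0 Bb).trans (by omega))
  set U := T.biUnion (fun x => Bb.filter (fun y => F x y ≠ b)) with hU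
  have hUc : 4 * U.card ≤ B.card := by
    have h1 : U.card ≤ ∑ x ∈ T, (Bb.filter (fun y => F x y ≠ b)).card := card_biUnion_le
    have h2 : ∀ x ∈ T, (4 * (r + 1)) * (Bb.filter (fun y => F x y ≠ b)).card ≤ B.card := by
      intro x hx
      refine le_trans ?_ (hcl x (hTA hx))
      refine Nat.mul_le_mul_left _ (card_le_card ?_)
      intro y hy
      rw [mem_filter, hBb, mem_filter] at hy
      rw [mem_filter]
      refine ⟨hy.1.1, ?_⟩
      rw [hy.1.2]
      exact hy.2
    have h3 : (4 * (r + 1)) * U.card ≤ (r + 1) * B.card := by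
      calc (4 * (r + 1)) * U.card ≤ (4 * (r + 1)) * ∑ x ∈ T, (Bb.filter (fun y => F x y ≠ b)).card :=
            Nat.mul_le_mul_left _ h1
        _ = ∑ x ∈ T, (4 * (r + 1)) * (Bb.filter (fun y => F x y ≠ b)).card := mul_sum _ _ _
        _ ≤ ∑ x ∈ T, B.card := sum_le_sum h2
        _ = T.card * B.card := by simp
        _ ≤ (r + 1) * B.card := Nat.mul_le_mul_right _ hTc
    have h4 : (r + 1) * (4 * U.card) ≤ (r + 1) * B.card := by
      calc (r + 1) * (4 * U.card) = (4 * (r + 1)) * U.card := by ring
        _ ≤ _ := h3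
    exact Nat.le_of_mul_le_mul_left h4 (by omega)
  refine ⟨A0, hA0, Bb \ U, sdiff_subset.trans (filter_subset _ _), b, ?_, ?_⟩
  · intro x hx y hy
    rw [mem_sdiff] at hy
    have h1 : G x y = 0 := by
      have h2 : ∀ g ∈ Submodule.span ℝ (G '' (T : Set X)), g y = 0 := by
        intro g hg
        induction hg using Submodule.span_induction with
        | mem g hg =>
          obtain ⟨t, ht, rfl⟩ := hg
          have h3 : y ∉ U := hy.2
          rw [hU, mem_biUnion] at h3
          push Not at h3
          have h4 := h3 t (by exact_mod_cast ht)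
          rw [mem_filter] at h4
          push Not at h4
          have h5 := h4 hy.1
          simp [G, h5]
        | zero => rfl
        | add f g _ _ hf hg => rw [Pi.add_apply, hf, hg, add_zero]
        | smul c f _ hf => rw [Pi.smul_apply, hf, smul_zero]
      exact h2 _ (hTs x hx)
    by_contra hne
    simp only [G, hy.1, if_true, hne, if_false] at h1
    exact one_ne_zero h1
  · have h1 : Bb.card ≤ (Bb \ U).card + U.card := by
      have := le_card_sdiff U Bb
      omega
    have h2 : B.card ≤ 4 * (Bb \ U).card := by omega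
    calc A.card * B.card ≤ (2 ^ a * A0.card) * (4 * (Bb \ U).card) := Nat.mul_le_mul hcard h2
      _ = 2 ^ (a + 2) * (A0.card * (Bb \ U).card) := by rw [pow_add]; ring

/-- `F` is hereditarily locally of small VC dimension: every submatrix has a dense submatrix whose
row or column VC dimension is `≤ d`. -/
def LocVC {X Y : Type*} (F : X → Y → Bool) (d : ℕ) : Prop :=
  ∀ (A : Finset X) (B : Finset Y), A.Nonempty → B.Nonempty → ∃ A1 ⊆ A, ∃ B1 ⊆ B,
    A.card * B.card ≤ 2 ^ d * (A1.card * B1.card) ∧
      (RowVC F A1 B1 d ∨ RowVC (fun y x => F x y) B1 A1 d)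

theorem rank_swap (F : X → Y → Bool) : (comm (fun y x => F x y)).rank = (comm F).rank := by
  have : comm (fun y x => F x y) = (comm F).transpose := by
    ext y x
    simp [Pool.Agent.H630R2.LR.comm]
  rw [this, Matrix.rank_transpose]

theorem rect (F : X → Y → Bool) (A : Finset X) (B : Finset Y) (d a r : ℕ) (hA : A.Nonempty)
    (hB : B.Nonempty) (hr : (comm F).rank ≤ r) (hVC : LocVC F d)
    (ha : (2 * a * (4 * (r + 1)) + 1) ^ d < 2 ^ a) :
    ∃ A' ⊆ A, ∃ B' ⊆ B, ∃ b : Bool, (∀ x ∈ A', ∀ y ∈ B', F x y = b) ∧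
      A.card * B.card ≤ 2 ^ (a + 2 + d) * (A'.card * B'.card) := by
  obtain ⟨A1, hA1, B1, hB1, hc, hor⟩ := hVC A B hA hB
  have hpos : 0 < A.card * B.card := Nat.mul_pos (card_pos.mpr hA) (card_pos.mpr hB)
  have hpos1 : 0 < A1.card * B1.card := by
    rcases Nat.eq_zero_or_pos (A1.card * B1.card) with h | h
    · rw [h] at hc; omega
    · exact h
  have hA1n : A1.Nonempty := card_pos.mp (Nat.pos_of_mul_pos_right hpos1)
  have hB1n : B1.Nonempty := card_pos.mp (Nat.pos_of_mul_pos_left hpos1)
  have key : ∃ A' ⊆ A1, ∃ B' ⊆ B1, ∃ b : Bool, (∀ x ∈ A', ∀ y ∈ B', F x y = b) ∧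
      A1.card * B1.card ≤ 2 ^ (a + 2) * (A'.card * B'.card) := by
    rcases hor with h | h
    · exact rect_row F A1 B1 d a r hA1n hB1n hr h ha
    · obtain ⟨B', hB', A', hA', b, hb, hcc⟩ := rect_row (fun y x => F x y) B1 A1 d a r hB1n hA1n
        (by rw [rank_swap]; exact hr) h ha
      refine ⟨A', hA', B', hB', b, fun x hx y hy => hb y hy x hx, ?_⟩
      rw [mul_comm A1.card, mul_comm A'.card]
      exact hcc
  obtain ⟨A', hA', B', hB', b, hb, hcc⟩ := key
  refine ⟨A', hA'.trans hA1, B', hB'.trans hB1, b, hb, ?_⟩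
  calc A.card * B.card ≤ 2 ^ d * (A1.card * B1.card) := hc
    _ ≤ 2 ^ d * (2 ^ (a + 2) * (A'.card * B'.card)) := Nat.mul_le_mul_left _ hcc
    _ = 2 ^ (a + 2 + d) * (A'.card * B'.card) := by rw [pow_add 2 (a + 2) d]; ring

end

end Pool.Agent.H238R2.LR
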